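import Pool.Agent.Helper74.TBD.Final

set_option autoImplicit false

namespace Pool.Agent.Results.MP_6f9e99_co.DenseBlocks

/-- `X` is a copoint (a flat of corank one) of the matroid of the vector set `S`. -/
def IsCopoint {K : Type} [Field K] {r : ℕ} (S X : Finset (Fin r → K)) : Prop :=
  X ⊆ S ∧
    (∀ s ∈ S, s ∈ Submodule.span K (X : Set (Fin r → K)) → s ∈ X) ∧
    Module.finrank K (Submodule.span K (X : Set (Fin r → K))) + 1 =
      Module.finrank K (Submodule.span K (S : Set (Fin r → K)))

/-- The complement of `X` in `S` is spanning. -/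
def ComplSpans {K : Type} [Field K] {r : ℕ} (S X : Finset (Fin r → K)) : Prop :=
  Submodule.span K ((S : Set (Fin r → K)) \ (X : Set (Fin r → K))) =
    Submodule.span K (S : Set (Fin r → K))

/-- `S` (nonzero vectors, no two parallel) represents a tangential `k`-block: its critical exponent
exceeds `k`, and for every nonempty flat `F` some `k` functionals vanish on `F` and have no common
zero on the rest of `S` (these are the hypotheses of the frozen statement). -/
structure IsTangential {K : Type} [Field K] {r : ℕ} (k : ℕ) (S : Finset (Fin r → K)) : Prop where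
  zero : (0 : Fin r → K) ∉ S
  simple : ∀ s ∈ S, ∀ t ∈ S, ∀ c : K, s = c • t → s = t
  block : ∀ f : (Fin r → K) →ₗ[K] (Fin k → K), ∃ s ∈ S, f s = 0
  tangential : ∀ F : Finset (Fin r → K), F ⊆ S → F.Nonempty →
      (∀ s ∈ S, s ∈ Submodule.span K (F : Set (Fin r → K)) → s ∈ F) →
      ∃ f : (Fin r → K) →ₗ[K] (Fin k → K),
        (∀ x ∈ F, f x = 0) ∧ ∀ s ∈ S, s ∉ F → f s ≠ 0

/-- The rank of the matroid of `S`. -/
noncomputable def rk {K : Type} [Field K] {r : ℕ} (S : Finset (Fin r → K)) : ℕ :=
  Module.finrank K (Submodule.span K (S : Set (Fin r → K)))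

/-- Let `S` be a tangential `k`-block of rank `rho` over the field with `q` elements. If
`7 * q ^ (rho + 2) ≤ 2 * q ^ k * |S|`, then some copoint of `S` has a spanning complement. In
particular this holds whenever `rho ≤ 2 * k - 3`. -/
theorem result (K : Type) [Field K] [Fintype K] (r k : ℕ) (S : Finset (Fin r → K))
    (hS : IsTangential k S)
    (hd : 7 * (Fintype.card K) ^ (rk S + 2) ≤ 2 * (Fintype.card K) ^ k * S.card ∨
      rk S + 3 ≤ 2 * k) :
    ∃ X : Finset (Fin r → K), IsCopoint S X ∧ ComplSpans S X := by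
  have H : Helper12.TB.Tang k S := ⟨hS.zero, hS.simple, hS.block, hS.tangential⟩
  have h1 : 7 * (Fintype.card K) ^ (rk S + 2) ≤ 2 * (Fintype.card K) ^ k * S.card := by
    rcases hd with hd | hd
    · exact hd
    · exact Helper74.TBD.dense_of_rank H hd
  obtain ⟨X, hX1, hX2, hX3, hX4⟩ := Helper74.TBD.dense H h1
  exact ⟨X, ⟨hX1, hX2, hX3⟩, hX4⟩

end Pool.Agent.Results.MP_6f9e99_co.DenseBlocks
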