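import Pool.Agent.Helper12.TB.Basic

set_option autoImplicit false

namespace Pool.Agent.Results.MP_6f9e99_co.LowRank

/-- `X` is a copoint (a flat of corank one) of the matroid of the vector set `S`. -/
def IsCopoint {K : Type} [Field K] {r : ℕ} (S X : Finset (Fin r → K)) : Prop :=
  X ⊆ S ∧
    (∀ s ∈ S, s ∈ Submodule.span K (X : Set (Fin r → K)) → s ∈ X) ∧
    Module.finrank K (Submodule.span K (X : Set (Fin r → K))) + 1 =
      Module.finrank K (Submodule.span K (S : Set (Fin r → K)))

/-- The complement of `X` in `S` is spanning. -/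
def ComplSpans {K : Type} [Field K] {r : ℕ} (S X : Finset (Fin r → K)) : Prop :=
  Submodule.span K ((S : Set (Fin r → K)) \ (X : Set (Fin r → K))) =
    Submodule.span K (S : Set (Fin r → K))

/-- `S` (nonzero vectors, no two parallel) represents a tangential `k`-block: its critical exponent
exceeds `k`, and for every nonempty flat `F` some `k` functionals vanish on `F` and have no common
zero on the rest of `S` (these are the hypotheses of the frozen statement). -/
structure IsTangential {K : Type} [Field K] {r : ℕ} (k : ℕ) (S : Finset (Fin r → K)) : Prop where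
  zero : (0 : Fin r → K) ∉ S
  simple : ∀ s ∈ S, ∀ t ∈ S, ∀ c : K, s = c • t → s = t
  block : ∀ f : (Fin r → K) →ₗ[K] (Fin k → K), ∃ s ∈ S, f s = 0
  tangential : ∀ F : Finset (Fin r → K), F ⊆ S → F.Nonempty →
      (∀ s ∈ S, s ∈ Submodule.span K (F : Set (Fin r → K)) → s ∈ F) →
      ∃ f : (Fin r → K) →ₗ[K] (Fin k → K),
        (∀ x ∈ F, f x = 0) ∧ ∀ s ∈ S, s ∉ F → f s ≠ 0

/-- In a tangential `k`-block over `GF(q)` every copoint whose complement does not span has more
than `q ^ k` points in its complement, and the complement has rank at least `k + 3`. In particular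
all copoint complements are spanning in rank at most `k + 3`. Moreover, in rank `k + 4` some copoint
has a spanning complement as soon as `(k + 3) ^ (k + 2) ≤ q ^ k`. -/
theorem result (K : Type) [Field K] [Fintype K] (r k : ℕ) (S : Finset (Fin r → K))
    (hS : IsTangential k S) :
    (∀ X : Finset (Fin r → K), IsCopoint S X →
      ComplSpans S X ∨
        ((Fintype.card K) ^ k < ((S : Set (Fin r → K)) \ (X : Set (Fin r → K))).ncard ∧
          k + 3 ≤ Module.finrank K
            (Submodule.span K ((S : Set (Fin r → K)) \ (X : Set (Fin r → K)))))) ∧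
    (Module.finrank K (Submodule.span K (S : Set (Fin r → K))) ≤ k + 3 ∨
        (Module.finrank K (Submodule.span K (S : Set (Fin r → K))) = k + 4 ∧
          (k + 3) ^ (k + 2) ≤ (Fintype.card K) ^ k) →
      ∃ X : Finset (Fin r → K), IsCopoint S X ∧ ComplSpans S X) := by
  classical
  have H : Helper12.TB.Tang k S := ⟨hS.zero, hS.simple, hS.block, hS.tangential⟩
  have hA : ∀ X : Finset (Fin r → K), IsCopoint S X →
      ComplSpans S X ∨
        ((Fintype.card K) ^ k < ((S : Set (Fin r → K)) \ (X : Set (Fin r → K))).ncard ∧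
          k + 3 ≤ Module.finrank K
            (Submodule.span K ((S : Set (Fin r → K)) \ (X : Set (Fin r → K))))) := by
    intro X hX
    by_cases hc : ComplSpans S X
    · exact Or.inl hc
    · right
      have h1 := Helper12.TB.partA H hX.1 hX.2.1 hX.2.2 hc
      refine ⟨?_, h1.2⟩
      have h2 : ((S : Set (Fin r → K)) \ (X : Set (Fin r → K))).ncard = (S \ X).card := by
        rw [← Finset.coe_sdiff, Set.ncard_coe_finset]
      rw [h2]
      exact h1.1
  refine ⟨hA, ?_⟩
  have hne : S.Nonempty := by
    obtain ⟨s, hs, -⟩ := hS.block 0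
    exact ⟨s, hs⟩
  rintro (h3 | ⟨h4, h5⟩)
  · obtain ⟨X, hX1, hX2, hX3⟩ := Helper12.TB.exists_copoint hS.zero hne
    refine ⟨X, ⟨hX1, hX2, hX3⟩, ?_⟩
    by_contra hc
    rcases hA X ⟨hX1, hX2, hX3⟩ with h | ⟨-, h⟩
    · exact hc h
    · have h6 : Submodule.span K ((S : Set (Fin r → K)) \ (X : Set (Fin r → K))) <
          Submodule.span K (S : Set (Fin r → K)) :=
        lt_of_le_of_ne (Submodule.span_mono Set.sdiff_subset) hc
      have h7 := Submodule.finrank_lt_finrank_of_lt h6
      omega
  · by_contra hcon
    push Not at hcon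
    have h6 := Helper12.TB.partC H h4 (fun X hX1 hX2 hX3 => hcon X ⟨hX1, hX2, hX3⟩)
    omega

end Pool.Agent.Results.MP_6f9e99_co.LowRank
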