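import Pool.Agent.Helper74.TBD.Final

set_option autoImplicit false

namespace Pool.Agent.Results.MP_6f9e99_co.SmallBlocks

/-- `X` is a copoint (a flat of corank one) of the matroid of the vector set `S`. -/
def IsCopoint {K : Type} [Field K] {r : ℕ} (S X : Finset (Fin r → K)) : Prop :=
  X ⊆ S ∧
    (∀ s ∈ S, s ∈ Submodule.span K (X : Set (Fin r → K)) → s ∈ X) ∧
    Module.finrank K (Submodule.span K (X : Set (Fin r → K))) + 1 =
      Module.finrank K (Submodule.span K (S : Set (Fin r → K)))

/-- The complement of `X` in `S` is spanning. -/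
def ComplSpans {K : Type} [Field K] {r : ℕ} (S X : Finset (Fin r → K)) : Prop :=
  Submodule.span K ((S : Set (Fin r → K)) \ (X : Set (Fin r → K))) =
    Submodule.span K (S : Set (Fin r → K))

/-- `S` (nonzero vectors, no two parallel) represents a tangential `k`-block: its critical exponent
exceeds `k`, and for every nonempty flat `F` some `k` functionals vanish on `F` and have no common
zero on the rest of `S` (these are the hypotheses of the frozen statement). -/
structure IsTangential {K : Type} [Field K] {r : ℕ} (k : ℕ) (S : Finset (Fin r → K)) : Prop where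
  zero : (0 : Fin r → K) ∉ S
  simple : ∀ s ∈ S, ∀ t ∈ S, ∀ c : K, s = c • t → s = t
  block : ∀ f : (Fin r → K) →ₗ[K] (Fin k → K), ∃ s ∈ S, f s = 0
  tangential : ∀ F : Finset (Fin r → K), F ⊆ S → F.Nonempty →
      (∀ s ∈ S, s ∈ Submodule.span K (F : Set (Fin r → K)) → s ∈ F) →
      ∃ f : (Fin r → K) →ₗ[K] (Fin k → K),
        (∀ x ∈ F, f x = 0) ∧ ∀ s ∈ S, s ∉ F → f s ≠ 0

/-- In a tangential `k`-block over the field with `q` elements that has at most
`2 * q ^ k + 1 + (1 + q + ... + q ^ (k - 1))` points, every copoint has a spanning complement. -/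
theorem result (K : Type) [Field K] [Fintype K] (r k : ℕ) (S : Finset (Fin r → K))
    (hS : IsTangential k S)
    (hs : S.card ≤ 2 * (Fintype.card K) ^ k + 1 + ∑ i ∈ Finset.range k, (Fintype.card K) ^ i) :
    ∀ X : Finset (Fin r → K), IsCopoint S X → ComplSpans S X := by
  have H : Helper12.TB.Tang k S := ⟨hS.zero, hS.simple, hS.block, hS.tangential⟩
  intro X hX
  exact Helper74.TBD.small H hs hX.1 hX.2.1 hX.2.2

end Pool.Agent.Results.MP_6f9e99_co.SmallBlocks
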